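import Pool.Agent.helper60.DB.SpecM

/-!
# Row bm:TA (MP_fb2c2a_nt): the type of a sum
-/

set_option autoImplicit false

namespace Pool.Agent.helper60.DB

open Polynomial

theorem TA (hRR : RR_stmt) : TA_stmt := by
  intro K _ _ A B B' A' y g1 u1 g2 u2 g3 u3 e1 e2 hy _ _ t1 t2 hg hu
  obtain ⟨hP, hC, hX, hop, hdiv⟩ := hRR K
  have add : ∀ {f g : PowerSeries K}, Rt f → Rt g → Rt (f + g) := fun hf hg => (hop _ _ hf hg).1
  have mul : ∀ {f g : PowerSeries K}, Rt f → Rt g → Rt (f * g) := fun hf hg => (hop _ _ hf hg).2.1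
  have sub : ∀ {f g : PowerSeries K}, Rt f → Rt g → Rt (f - g) := fun hf hg =>
    (hop _ _ hf hg).2.2.1
  have hone : Rt (1 : PowerSeries K) := by
    have := hC 1
    rwa [map_one] at this
  have htwo : Rt (2 : PowerSeries K) := by
    have := add hone hone
    rwa [one_add_one_eq_two] at this
  have y2 : Rt (y ^ 2) := by
    rw [hy.sq]
    exact add (add hone (mul (hC A) hX)) (mul (hC B) (by rw [pow_two]; exact mul hX hX))
  have yne : y ≠ 0 := by
    rintro rfl
    have := hy.one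
    rw [map_zero] at this
    exact zero_ne_one this
  have y2ne : y ^ 2 ≠ 0 := pow_ne_zero 2 yne
  have dy : ∀ a b : PowerSeries K, Rt (y * a) → Rt (y * b) → Rt (a * b) := fun a b ha hb =>
    hdiv (y ^ 2) (a * b) ((y * a) * (y * b)) y2 (mul ha hb) y2ne (by ring)
  have psi : ∀ (e : ℤ) (g u : PowerSeries K), Ty y e g u → Rt (PowerSeries.X * g ^ 2) := by
    intro e g u t
    rw [pow_two]
    rcases Int.even_or_odd e with h | h
    · exact mul hX (dy g g (t.2 h).1 (t.2 h).1)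
    · exact mul hX (mul (t.1 h).1 (t.1 h).1)
  have p1 := psi e1 g1 u1 t1
  have p2 := psi e2 g2 u2 t2
  have hB : Rt (PowerSeries.C B' * (PowerSeries.X * g1 ^ 2) * (PowerSeries.X * g2 ^ 2)) :=
    mul (mul (hC B') p1) p2
  have hδ : Rt (1 - PowerSeries.C B' * (PowerSeries.X * g1 ^ 2) * (PowerSeries.X * g2 ^ 2)) :=
    sub hone hB
  have hδ0 : (1 - PowerSeries.C B' * (PowerSeries.X * g1 ^ 2) * (PowerSeries.X * g2 ^ 2)) ≠ 0 := by
    intro h
    have h1 := congrArg PowerSeries.constantCoeff h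
    simp only [map_sub, map_one, map_mul, PowerSeries.constantCoeff_X, zero_mul, mul_zero,
      sub_zero, map_zero] at h1
    exact one_ne_zero h1
  have G : ∀ c : PowerSeries K, Rt (c * (g1 * u2 + g2 * u1)) → Rt (c * g3) := fun c h =>
    hdiv _ (c * g3) _ hδ h hδ0 (by rw [mul_left_comm, hg])
  have U : ∀ c : PowerSeries K, Rt (c * (u1 * u2)) → Rt (c * (g1 * g2)) → Rt (c * u3) := by
    intro c h1 h2
    refine hdiv ((1 - PowerSeries.C B' * (PowerSeries.X * g1 ^ 2) * (PowerSeries.X * g2 ^ 2)) ^ 2)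
      (c * u3) ((1 + PowerSeries.C B' * (PowerSeries.X * g1 ^ 2) * (PowerSeries.X * g2 ^ 2))
          * (c * (u1 * u2) + PowerSeries.C A' * (PowerSeries.X * (c * (g1 * g2))))
        + 2 * PowerSeries.C B' * (PowerSeries.X * (c * (g1 * g2))) *
          (PowerSeries.X * g1 ^ 2 + PowerSeries.X * g2 ^ 2)) ?_ ?_ (pow_ne_zero 2 hδ0) ?_
    · rw [pow_two]
      exact mul hδ hδ
    · exact add (mul (add hone hB) (add h1 (mul (hC A') (mul hX h2))))
        (mul (mul (mul htwo (hC B')) (mul hX h2)) (add p1 p2))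
    · rw [mul_left_comm, hu]
      ring
  have one' : ∀ {f : PowerSeries K}, Rt f → Rt (1 * f) := fun h => by rwa [one_mul]
  have one'' : ∀ {f : PowerSeries K}, Rt (1 * f) → Rt f := fun h => by rwa [one_mul] at h
  rcases Int.even_or_odd e1 with h1 | h1 <;> rcases Int.even_or_odd e2 with h2 | h2
  · obtain ⟨a1, b1⟩ := t1.2 h1
    obtain ⟨a2, b2⟩ := t2.2 h2
    refine ⟨fun h => absurd (h1.add h2) (Int.not_even_iff_odd.2 h), fun _ => ⟨G y ?_, ?_⟩⟩
    · have := add (mul a1 b2) (mul a2 b1)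
      have e : y * (g1 * u2 + g2 * u1) = y * g1 * u2 + y * g2 * u1 := by ring
      rw [e]
      exact this
    · exact one'' (U 1 (one' (mul b1 b2)) (one' (dy g1 g2 a1 a2)))
  · obtain ⟨a1, b1⟩ := t1.2 h1
    obtain ⟨a2, b2⟩ := t2.1 h2
    refine ⟨fun _ => ⟨one'' (G 1 (one' ?_)), U y ?_ ?_⟩,
      fun h => absurd h (Int.not_even_iff_odd.2 (h1.add_odd h2))⟩
    · exact add (dy g1 u2 a1 b2) (mul a2 b1)
    · have e : y * (u1 * u2) = u1 * (y * u2) := by ring
      rw [e]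
      exact mul b1 b2
    · rw [← mul_assoc]
      exact mul a1 a2
  · obtain ⟨a1, b1⟩ := t1.1 h1
    obtain ⟨a2, b2⟩ := t2.2 h2
    refine ⟨fun _ => ⟨one'' (G 1 (one' ?_)), U y ?_ ?_⟩,
      fun h => absurd h (Int.not_even_iff_odd.2 (h1.add_even h2))⟩
    · exact add (mul a1 b2) (dy g2 u1 a2 b1)
    · rw [← mul_assoc]
      exact mul b1 b2
    · have e : y * (g1 * g2) = g1 * (y * g2) := by ring
      rw [e]
      exact mul a1 a2
  · obtain ⟨a1, b1⟩ := t1.1 h1
    obtain ⟨a2, b2⟩ := t2.1 h2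
    refine ⟨fun h => absurd (h1.add_odd h2) (Int.not_even_iff_odd.2 h), fun _ => ⟨G y ?_, ?_⟩⟩
    · have e : y * (g1 * u2 + g2 * u1) = g1 * (y * u2) + g2 * (y * u1) := by ring
      rw [e]
      exact add (mul a1 b2) (mul a2 b1)
    · exact one'' (U 1 (one' (dy u1 u2 b1 b2)) (one' (mul a1 a2)))

end Pool.Agent.helper60.DB
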